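import Pool.Agent.Q237.LR.Stm
import Pool.Agent.H999R5.Inj.T_NCK
import Pool.Agent.H999R5.Inj.T_GAU
import Pool.Agent.H999R5.Inj.T_IBP
import Pool.Agent.H999R5.Inj.T_HZ
import Pool.Agent.H999R5.Inj.T_TR

/-! Project LR, job NCK: noncommutative Khintchine inequality with the trace of the variance. -/

set_option autoImplicit false

namespace Pool.Agent.Q211.LR

open MeasureTheory ProbabilityTheory Finset
open Pool.Agent.H999R5.Inj (GX gm qf S_IBP S_HZ S_TR)
open Pool.Agent.H999R5.Inj.NCKaux (GX_symm GX_pow int_pow prod_le)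
open scoped Matrix

theorem tr_sq_nonneg {d : ℕ} (A : Matrix (Fin d) (Fin d) ℝ) (hA : A.IsSymm) :
    0 ≤ (A * A).trace := by
  have h1 := (Matrix.posSemidef_conjTranspose_mul_self A).trace_nonneg
  rwa [Matrix.conjTranspose_eq_transpose_of_trivial, hA.eq] at h1

theorem tr_scaled (hT : S_TR) {d : ℕ} (S X : Matrix (Fin d) (Fin d) ℝ) (c : ℝ) (hc : 0 < c)
    (hP : (c • (1 : Matrix (Fin d) (Fin d) ℝ) - S).PosSemidef) (hX : X.IsSymm) (j : ℕ) :
    (S * X ^ (2 * j)).trace ≤ c * (X ^ (2 * j)).trace := by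
  have h1 : (1 - c⁻¹ • S).PosSemidef := by
    have h2 := hP.smul (inv_nonneg.2 hc.le)
    rwa [smul_sub, smul_smul, inv_mul_cancel₀ hc.ne', one_smul] at h2
  have h3 := hT d (c⁻¹ • S) X h1 hX j
  rw [Matrix.smul_mul, Matrix.trace_smul, smul_eq_mul] at h3
  have h4 := mul_le_mul_of_nonneg_left h3 hc.le
  rwa [← mul_assoc, mul_inv_cancel₀ hc.ne', one_mul] at h4

theorem bound (hI : S_IBP) (hH : S_HZ) (hT : S_TR) {n d : ℕ}
    (A : Fin n → Matrix (Fin d) (Fin d) ℝ) (c T : ℝ) (hA : ∀ i, (A i).IsSymm) (hc : 0 < c)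
    (hP : (c • (1 : Matrix (Fin d) (Fin d) ℝ) - ∑ i, A i * A i).PosSemidef)
    (hTr : (∑ i, A i * A i).trace ≤ T) (m : ℕ) :
    ∫ g, (GX A g ^ (2 * (m + 1))).trace ∂(gm n) ≤
      (∏ j ∈ range (m + 1), (2 * (j:ℝ) + 1)) * (c ^ m * T) := by
  induction m with
  | zero =>
    obtain ⟨i1, i2, i3, i4⟩ := hI n d A
    have e1 : ∫ g, (GX A g ^ (2 * (0 + 1))).trace ∂(gm n) =
        ∑ i, ∫ g, g i * (A i * GX A g ^ (0 + 1)).trace ∂(gm n) := by
      rw [← integral_finsetSum _ fun i _ => i2 (A i) (0 + 1) i]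
      refine integral_congr_ae (Filter.Eventually.of_forall fun g => ?_)
      exact GX_pow A g (0 + 1)
    have e2 : ∀ i, ∫ g, g i * (A i * GX A g ^ (0 + 1)).trace ∂(gm n) = (A i * A i).trace := by
      intro i
      rw [i4 i 0, Finset.sum_range_one]
      simp only [pow_zero, mul_one, Nat.sub_self]
      rw [integral_const]
      simp
    rw [e1, Finset.sum_congr rfl fun i _ => e2 i, ← Matrix.trace_sum]
    simpa using hTr
  | succ m ih =>
    obtain ⟨i1, i2, i3, i4⟩ := hI n d A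
    have e1 : ∫ g, (GX A g ^ (2 * (m + 1 + 1))).trace ∂(gm n) =
        ∑ i, ∫ g, g i * (A i * GX A g ^ (2 * (m + 1) + 1)).trace ∂(gm n) := by
      rw [← integral_finsetSum _ fun i _ => i2 (A i) (2 * (m + 1) + 1) i]
      refine integral_congr_ae (Filter.Eventually.of_forall fun g => ?_)
      exact GX_pow A g (2 * (m + 1) + 1)
    have e2 : ∀ i, ∫ g, g i * (A i * GX A g ^ (2 * (m + 1) + 1)).trace ∂(gm n) ≤
        (2 * ((m + 1 : ℕ):ℝ) + 1) * ∫ g, (A i * A i * GX A g ^ (2 * (m + 1))).trace ∂(gm n) := by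
      intro i
      rw [i4 i (2 * (m + 1))]
      have h1 : ∀ q ∈ range (2 * (m + 1) + 1),
          ∫ g, (A i * GX A g ^ q * A i * GX A g ^ (2 * (m + 1) - q)).trace ∂(gm n) ≤
            ∫ g, (A i * A i * GX A g ^ (2 * (m + 1))).trace ∂(gm n) := by
        intro q hq
        refine integral_mono (i3 i (2 * (m + 1) - q) q) (i1 (A i * A i) (2 * (m + 1))) fun g => ?_
        exact hH d (A i) (GX A g) (hA i) (GX_symm A hA g) (m + 1) q
          (Nat.lt_succ_iff.1 (Finset.mem_range.1 hq))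
      refine (Finset.sum_le_sum h1).trans (le_of_eq ?_)
      rw [Finset.sum_const, Finset.card_range, nsmul_eq_mul]
      push_cast
      ring
    have e3 : ∑ i, ∫ g, (A i * A i * GX A g ^ (2 * (m + 1))).trace ∂(gm n) ≤
        c * ∫ g, (GX A g ^ (2 * (m + 1))).trace ∂(gm n) := by
      rw [← integral_finsetSum _ fun i _ => i1 (A i * A i) (2 * (m + 1)), ← integral_const_mul]
      refine integral_mono (integrable_finsetSum _ fun i _ => i1 (A i * A i) (2 * (m + 1)))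
        ((int_pow hI A (2 * (m + 1))).const_mul c) fun g => ?_
      have h2 := tr_scaled hT (∑ i, A i * A i) (GX A g) c hc hP (GX_symm A hA g) (m + 1)
      rw [Finset.sum_mul, Matrix.trace_sum] at h2
      exact h2
    rw [e1, Finset.prod_range_succ]
    calc ∑ i, ∫ g, g i * (A i * GX A g ^ (2 * (m + 1) + 1)).trace ∂(gm n)
        ≤ ∑ i, (2 * ((m + 1 : ℕ):ℝ) + 1) *
            ∫ g, (A i * A i * GX A g ^ (2 * (m + 1))).trace ∂(gm n) :=
          Finset.sum_le_sum fun i _ => e2 i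
      _ = (2 * ((m + 1 : ℕ):ℝ) + 1) *
            ∑ i, ∫ g, (A i * A i * GX A g ^ (2 * (m + 1))).trace ∂(gm n) := by
          rw [Finset.mul_sum]
      _ ≤ (2 * ((m + 1 : ℕ):ℝ) + 1) * (c * ∫ g, (GX A g ^ (2 * (m + 1))).trace ∂(gm n)) :=
          mul_le_mul_of_nonneg_left e3 (by positivity)
      _ ≤ (2 * ((m + 1 : ℕ):ℝ) + 1) *
            (c * ((∏ j ∈ range (m + 1), (2 * (j:ℝ) + 1)) * (c ^ m * T))) :=
          mul_le_mul_of_nonneg_left (mul_le_mul_of_nonneg_left ih hc.le) (by positivity)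
      _ = (∏ j ∈ range (m + 1), (2 * (j:ℝ) + 1)) * (2 * ((m + 1 : ℕ):ℝ) + 1) *
            (c ^ (m + 1) * T) := by ring

/-- NCK -/
theorem nck (hI : S_IBP) (hH : S_HZ) (hT : S_TR) : Pool.Agent.Q237.LR.S_NCK := by
  intro m n N A c T hm hA hc hP hTr
  refine ⟨int_pow hI A (2 * m), ?_⟩
  obtain ⟨k, rfl⟩ : ∃ k, m = k + 1 := ⟨m - 1, by omega⟩
  have hT0 : 0 ≤ T := by
    refine le_trans ?_ hTr
    rw [Matrix.trace_sum]
    exact Finset.sum_nonneg fun i _ => tr_sq_nonneg (A i) (hA i)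
  refine (bound hI hH hT A c T hA hc hP hTr k).trans ?_
  rw [Nat.add_sub_cancel]
  exact mul_le_mul_of_nonneg_right (prod_le (k + 1)) (by positivity)

/-- NCK without hypotheses -/
theorem nck0 : Pool.Agent.Q237.LR.S_NCK :=
  nck (Pool.Agent.H999R5.Inj.t_IBP Pool.Agent.H999R5.Inj.t_GAU) Pool.Agent.H999R5.Inj.t_HZ
    Pool.Agent.H999R5.Inj.t_TR

end Pool.Agent.Q211.LR
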